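import Mathlib

namespace Pool.Agent.Results.MP_f00063_lc.Middle

/-- `A ∈ U ⊕ V ↔ {m | {n | m + n ∈ A} ∈ V} ∈ U` -/
def add (U V : Ultrafilter ℕ+) : Ultrafilter ℕ+ := U.bind fun m => V.map fun n => m + n

/-- the image of `U` under `n ↦ a n` -/
def smul (a : ℕ+) (U : Ultrafilter ℕ+) : Ultrafilter ℕ+ := U.map fun n => a * n

lemma mem_add (U V : Ultrafilter ℕ+) (A : Set ℕ+) :
    A ∈ add U V ↔ {m | {n | m + n ∈ A} ∈ V} ∈ U := Iff.rfl

lemma assoc (U V W : Ultrafilter ℕ+) : add (add U V) W = add U (add V W) := by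
  ext A; simp [mem_add, add_assoc]

lemma smul_add (a : ℕ+) (U V : Ultrafilter ℕ+) : smul a (add U V) = add (smul a U) (smul a V) := by
  ext A; simp [mem_add, smul, mul_add, Set.preimage]

lemma smul_smul (a b : ℕ+) (U : Ultrafilter ℕ+) : smul a (smul b U) = smul (a * b) U := by
  ext A; simp [smul, mul_assoc, Set.preimage]

theorem result : ∃ (U : Ultrafilter ℕ+) (a b b' c : ℕ+), b ≠ b' ∧
    add (add (smul a U) (smul b U)) (smul c U) = add (add (smul a U) (smul b' U)) (smul c U) := by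
  letI : Semigroup (Ultrafilter ℕ+) := { mul := add, mul_assoc := assoc }
  obtain ⟨V, hV⟩ := exists_idempotent_of_compact_t2_of_continuous_mul_left (M := Ultrafilter ℕ+)
    fun V => ultrafilterBasis_is_basis.continuous_iff.2 <| Set.forall_mem_range.mpr fun s =>
      ultrafilter_isOpen_basic {m | {n | m + n ∈ s} ∈ V}
  have h : ∀ a W, add (smul a V) (add (smul a V) W) = add (smul a V) W := fun a W => by
    rw [← assoc, ← smul_add]; exact congrArg (fun X => add (smul a X) W) hV
  refine ⟨add (smul 1 V) (smul 2 V), 1, 2, 4, 8, by decide, ?_⟩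
  simp only [smul_add, smul_smul, assoc, mul_one, h, show (2 : ℕ+) * 2 = 4 from rfl,
    show (4 : ℕ+) * 2 = 8 from rfl, one_mul]

end Pool.Agent.Results.MP_f00063_lc.Middle
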